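import Pool.Agent.H37Z.Tri.Limit

set_option autoImplicit false

/-!
# Almost dense graphs with few 4-cycles, bounded normalised counts and few triangles

The kernel `W(x, y) = ∏ (1 - δ xᵢ yᵢ)` on `{1, -1} ^ m` has `t(K₂, W) = 1`, `t(C₄, W) = (1 + δ⁴) ^ m`,
`t(K₃, W) = (1 - δ³) ^ m` and `t(F, W) ≤ (1 + 2 ^ e(F) δ⁴) ^ m` for every graph `F`.  With
`m δ³ → ∞` and `m δ⁴ → 0` it is `C₄`-quasirandom, all its homomorphism densities are bounded, and its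
triangle density tends to `0`.  The graphs are random graphs with edge probabilities
`p W(x_u, x_v)`, where `x_v` is a random type of the vertex `v`.
-/

namespace Pool.Agent.Results.MP_e47ff0_co.TrianglesVanish

open Filter Topology

/-- `s_p(F, G) = emb(F, G) / (n (n - 1) ⋯ (n - |F| + 1) p ^ e(F))`, where `emb(F, G)` is the number of
labelled copies of `F` in `G`. -/
noncomputable def s {k n : ℕ} (p : ℝ) (F : SimpleGraph (Fin k)) (G : SimpleGraph (Fin n)) : ℝ :=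
  (G.labelledCopyCount F : ℝ) / ((n.descFactorial k : ℝ) * p ^ F.edgeSet.ncard)

/-- `0 < p(n) ≤ 1` and `p(n) = n ^ (-o(1))`. -/
def Rate (p : ℕ → ℝ) : Prop :=
  (∀ n, 0 < p n ∧ p n ≤ 1) ∧
    Tendsto (fun n : ℕ => Real.log (1 / p n) / Real.log n) atTop (𝓝 0)

/-- The conditions 1-3: `e(G_n) = p(n) C(n,2)`, `s_p(C₄, G_n) → 1`, and `sup_n s_p(F, G_n) < ∞` for
every graph `F`. -/
def Conditions (p : ℕ → ℝ) (G : (n : ℕ) → SimpleGraph (Fin n)) : Prop :=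
  (∀ n : ℕ, ((G n).edgeSet.ncard : ℝ) = p n * (n.choose 2 : ℝ)) ∧
  Tendsto (fun n => s (p n) (SimpleGraph.cycleGraph 4) (G n)) atTop (𝓝 1) ∧
  ∀ (k : ℕ) (F : SimpleGraph (Fin k)), BddAbove (Set.range fun n => s (p n) F (G n))

/-- **Theorem.** (1) For every `p(n) = n ^ (-o(1))` which tends to `0` (and for which `p(n) C(n,2)` is
an integer, as condition 1 requires) there is a sequence `(G_n)` which satisfies the conditions 1-3
and for which `s_p(K₃, G_n)` tends to `0`.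
(2) There is such a `p`.  (3) Hence the statement of Q1 is false. -/
theorem result :
    (∀ p : ℕ → ℝ, Rate p → Tendsto p atTop (𝓝 0) →
      (∀ n : ℕ, ∃ N : ℕ, p n * (n.choose 2 : ℝ) = N) →
      ∃ G : (n : ℕ) → SimpleGraph (Fin n), Conditions p G ∧
        Tendsto (fun n => s (p n) (⊤ : SimpleGraph (Fin 3)) (G n)) atTop (𝓝 0)) ∧
    (∃ p : ℕ → ℝ, Rate p ∧ Tendsto p atTop (𝓝 0) ∧
      ∀ n : ℕ, ∃ N : ℕ, p n * (n.choose 2 : ℝ) = N) ∧
    ¬ ∀ (p : ℕ → ℝ) (G : (n : ℕ) → SimpleGraph (Fin n)), Rate p → Conditions p G →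
        Tendsto (fun n => s (p n) (⊤ : SimpleGraph (Fin 3)) (G n)) atTop (𝓝 1) := by
  have h1 : ∀ p : ℕ → ℝ, Rate p → Tendsto p atTop (𝓝 0) →
      (∀ n : ℕ, ∃ N : ℕ, p n * (n.choose 2 : ℝ) = N) →
      ∃ G : (n : ℕ) → SimpleGraph (Fin n), Conditions p G ∧
        Tendsto (fun n => s (p n) (⊤ : SimpleGraph (Fin 3)) (G n)) atTop (𝓝 0) := by
    intro p hp hp0 hint
    obtain ⟨G, g1, g2, g3, g4⟩ := H37Z.Tri.main p hp.1 hp0 hp.2 hint
    exact ⟨G, ⟨g1, g2, g3⟩, g4⟩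
  have h2 : Rate H37Z.Tri.slow := ⟨H37Z.Tri.slow_pos, H37Z.Tri.slow_rate⟩
  refine ⟨h1, ⟨H37Z.Tri.slow, h2, H37Z.Tri.slow_tendsto, H37Z.Tri.slow_int⟩, ?_⟩
  intro hcon
  obtain ⟨G, hG, hlim⟩ := h1 H37Z.Tri.slow h2 H37Z.Tri.slow_tendsto H37Z.Tri.slow_int
  have h3 := tendsto_nhds_unique hlim (hcon _ G h2 hG)
  exact absurd h3 (by norm_num)

end Pool.Agent.Results.MP_e47ff0_co.TrianglesVanish
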